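import Pool.Agent.N299.PX.Stm

/-!
# PX/BPI (helper570): bridge for the comparison property
-/

set_option autoImplicit false

open Filter

namespace Pool.Agent.N570.PX.BPI

open Pool.Agent.N299 Pool.Agent.N299.DT Pool.Agent.N299.ND Pool.Agent.N299.ND.Pub
open Pool.Agent.N299.PX Pool.Agent.N299.PX.Pub

theorem t_BPI : Pool.Agent.N299.PX.S_BPI := by
  intro A B _ _ ι I hinc hcmp a b ha hb hab
  have hnorm : ∀ x, ‖ι x‖ = ‖x‖ := fun x => NonUnitalStarAlgHom.norm_map ι hinc.inj x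
  have hcont : Continuous ι := (NonUnitalStarAlgHom.isometry ι hinc.inj).continuous
  have hmem : ∀ x, ι x ∈ I := fun x => (hinc.mem (ι x)).2 ⟨x, rfl⟩
  have hpos : ∀ {x : A}, (∃ y : A, x = star y * y) → Pos (ι x) := by
    rintro x ⟨y, rfl⟩
    exact ⟨ι y, by rw [map_mul, map_star]⟩
  have hcl : ι a ∈ closure
      ((Submodule.span ℂ {c : B | ∃ x z : B, c = x * ι b * z} : Set B)) := by
    refine map_mem_closure hcont hab ?_
    intro c hc
    have h1 : (Submodule.span ℂ {c : A | ∃ x z : A, c = x * b * z}) ≤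
        (Submodule.span ℂ {c : B | ∃ x z : B, c = x * ι b * z}).comap (ι : A →ₗ[ℂ] B) := by
      rw [Submodule.span_le]
      rintro c ⟨x, z, rfl⟩
      apply Submodule.subset_span
      exact ⟨ι x, ι z, by show ι (x * b * z) = _; rw [map_mul, map_mul]⟩
    exact h1 hc
  have key : ∀ k : ℕ, ∃ x : A, ‖star x * b * x - a‖ ≤ 1 / ((k : ℝ) + 1) := by
    intro k
    obtain ⟨x, hx, hx2⟩ := hcmp (ι a) (hmem a) (ι b) (hmem b) (hpos ha) (hpos hb) hcl
      (1 / ((k : ℝ) + 1)) (by positivity)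
    obtain ⟨y, rfl⟩ := (hinc.mem x).1 hx
    refine ⟨y, ?_⟩
    rw [← hnorm, map_sub, map_mul, map_mul, map_star]
    exact hx2
  choose x hx using key
  refine ⟨x, ?_⟩
  rw [tendsto_iff_norm_sub_tendsto_zero]
  exact squeeze_zero (fun _ => norm_nonneg _) hx tendsto_one_div_add_atTop_nhds_zero_nat

end Pool.Agent.N570.PX.BPI
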